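import Mathlib
import Pool.Agent.W_MP_9da05b_an.Defs
import Pool.Agent.W_MP_9da05b_an.Adm
import Pool.Agent.W_MP_9da05b_an.Diss
import Pool.Agent.W_MP_9da05b_an.Reg3
import Pool.Agent.W_MP_9da05b_an.Growth

set_option autoImplicit false

namespace Pool.Agent.Results.MP_9da05b_an.RelaxedDissipationNotISS

open Set Filter Topology MeasureTheory Pool.Agent.W_MP_9da05b_an

/-- For every delay `T > 0` and all dimensions `n, m ≥ 1` there are an admissible right-hand side
`f` and a continuous functional `V ≥ 0` which satisfies the regularity condition, the sandwich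
bound and the relaxed dissipation condition
`|x(0)| ≥ χ(|v|) ⟹ V̇_v(x) ≤ -α(|x(0)|)`, although the system `ẋ(t) = f(x_t,u(t))` is not ISS. -/
theorem result : ∀ (T : ℝ) [Fact (0 < T)] (n m : ℕ), 1 ≤ n → 1 ≤ m →
    ∃ (f : St T n → Eu m → Eu n) (V : St T n → ℝ),
      Admissible f ∧ Continuous V ∧ (∀ x : St T n, 0 ≤ V x) ∧ Regularity f V ∧
      (∃ ψ₁ ψ₂ : ℝ → ℝ, ClassKInf ψ₁ ∧ ClassKInf ψ₂ ∧
        ∀ x : St T n, ψ₁ ‖x (zeroPt T)‖ ≤ V x ∧ V x ≤ ψ₂ ‖x‖) ∧
      (∃ α χ : ℝ → ℝ, ClassKInf α ∧ ClassK χ ∧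
        ∀ (x : St T n) (v : Eu m), χ ‖v‖ ≤ ‖x (zeroPt T)‖ →
          driverDeriv f V x v ≤ ((-α ‖x (zeroPt T)‖ : ℝ) : EReal)) ∧
      ¬ ISS f := by
  intro T hT n m hn hm
  have hT0 := hT.out
  set e : Eu n := EuclideanSpace.single ⟨0, hn⟩ 1 with he_def
  set e' : Eu m := EuclideanSpace.single ⟨0, hm⟩ 1 with he'_def
  have he : ‖e‖ = 1 := by simp [he_def]
  have he' : ‖e'‖ = 1 := by simp [he'_def]
  have hlin : ∀ c : ℝ, 0 < c → ClassKInf (fun r => c * r) := by
    intro c hc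
    refine ⟨⟨by fun_prop, ?_, by simp⟩, ?_⟩
    · intro a _ b _ hab
      exact mul_lt_mul_of_pos_left hab hc
    · exact tendsto_id.const_mul_atTop hc
  refine ⟨ff e e', VV e, admissible_ff e he e' he', continuous_VV e he, VV_nonneg e,
    regularity_VV e he e' he', ⟨fun r => 1 * r, fun r => 3/2 * r, hlin 1 one_pos,
      hlin (3/2) (by norm_num), ?_⟩, ⟨fun r => 1 / (2 * T) * r, fun r => 1 * r,
      hlin _ (by positivity), (hlin 1 one_pos).1, ?_⟩, not_ISS e he e' he'⟩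
  · intro x
    refine ⟨?_, VV_le_norm e he x⟩
    simp only [one_mul]
    exact norm_zero_le_VV e x
  · intro x v hxv
    simp only [one_mul] at hxv
    exact dissipation e he e' he' x v hxv

end Pool.Agent.Results.MP_9da05b_an.RelaxedDissipationNotISS
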